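import Pool.Agent.Y152.RP.Stm

/-!
Project RP: the combinatorics of the six terms.
-/

set_option autoImplicit false

namespace Pool.Agent.Y564.RP

open Pool.Agent.Y152.RP

section tree

variable {q0 q1 q2 q3 q4 q5 : ℕ}

theorem treeA1 (n01 : q1 ≠ q0) (n23 : q3 ≠ q2) (n45 : q5 ≠ q4) (h20 : q2 = q0) (h40 : q4 = q0)
    (D1 : q2 = q1 ∨ q3 = q1 ∨ q4 = q1 ∨ q5 = q1)
    (D3 : q3 = q0 ∨ q3 = q1 ∨ q4 = q3 ∨ q5 = q3)
    (D5 : q5 = q0 ∨ q5 = q1 ∨ q5 = q2 ∨ q5 = q3)
    (X3 : q2 = q0 → q4 = q0 → q3 = q1 → q5 = q1 → False) : False := by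
  have h : q3 = q1 ∧ q5 = q1 := by
    clear X3
    rcases D1 with h | h | h | h
    · omega
    · rcases D5 with h' | h' | h' | h' <;> omega
    · omega
    · rcases D3 with h' | h' | h' | h' <;> omega
  exact X3 h20 h40 h.1 h.2

theorem treeA2 (n01 : q1 ≠ q0) (n23 : q3 ≠ q2) (n45 : q5 ≠ q4) (h20 : q2 = q0) (h50 : q5 = q0)
    (D1 : q2 = q1 ∨ q3 = q1 ∨ q4 = q1 ∨ q5 = q1)
    (D4 : q4 = q0 ∨ q4 = q1 ∨ q4 = q2 ∨ q4 = q3)
    (X1 : q4 ≠ q1) : False := by
  rcases D1 with h | h | h | h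
  · omega
  · rcases D4 with h' | h' | h' | h' <;> omega
  · omega
  · omega

theorem treeA3 (n01 : q1 ≠ q0) (n23 : q3 ≠ q2) (n45 : q5 ≠ q4) (h20 : q2 = q0) (h40 : q4 ≠ q0)
    (h50 : q5 ≠ q0) (D4 : q4 = q0 ∨ q4 = q1 ∨ q4 = q2 ∨ q4 = q3)
    (D5 : q5 = q0 ∨ q5 = q1 ∨ q5 = q2 ∨ q5 = q3)
    (P14 : q4 = q1 → q2 = q1 ∨ q3 = q1) (P34 : q4 = q3 → q3 = q0 ∨ q3 = q1) : False := by
  have h : q4 = q1 ∧ q3 = q1 := by
    rcases D4 with h | h | h | h
    · exact absurd h h40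
    · rcases P14 h with h' | h'
      · omega
      · exact ⟨h, h'⟩
    · omega
    · rcases P34 h with h' | h'
      · omega
      · exact ⟨h.trans h', h'⟩
  obtain ⟨h, h'⟩ := h
  clear P14 P34 D4
  rcases D5 with h' | h' | h' | h' <;> omega

theorem treeB1 (n01 : q1 ≠ q0) (n23 : q3 ≠ q2) (n45 : q5 ≠ q4) (h30 : q3 = q0)
    (D1 : q2 = q1 ∨ q3 = q1 ∨ q4 = q1 ∨ q5 = q1)
    (D2 : q2 = q0 ∨ q2 = q1 ∨ q4 = q2 ∨ q5 = q2)
    (P03 : q4 = q0 ∨ q5 = q0) (X2 : q2 ≠ q1) : False := by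
  rcases P03 with h | h
  · rcases D2 with h' | h' | h' | h'
    · omega
    · omega
    · omega
    · rcases D1 with h'' | h'' | h'' | h'' <;> omega
  · rcases D2 with h' | h' | h' | h'
    · omega
    · omega
    · rcases D1 with h'' | h'' | h'' | h'' <;> omega
    · omega

theorem treeB2 (n01 : q1 ≠ q0) (n23 : q3 ≠ q2) (n45 : q5 ≠ q4) (h20 : q2 ≠ q0) (h30 : q3 ≠ q0)
    (h40 : q4 = q0) (D2 : q2 = q0 ∨ q2 = q1 ∨ q4 = q2 ∨ q5 = q2)
    (D3 : q3 = q0 ∨ q3 = q1 ∨ q4 = q3 ∨ q5 = q3)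
    (P12 : q2 = q1 → q4 = q1 ∨ q5 = q1) (P25 : q5 = q2 → q2 = q0 ∨ q2 = q1) : False := by
  have h : q2 = q1 ∧ q5 = q1 := by
    rcases D2 with h | h | h | h
    · exact absurd h h20
    · rcases P12 h with h' | h'
      · omega
      · exact ⟨h, h'⟩
    · omega
    · rcases P25 h with h' | h'
      · exact absurd h' h20
      · exact ⟨h', h.trans h'⟩
  obtain ⟨h, h'⟩ := h
  clear P12 P25 D2
  rcases D3 with h' | h' | h' | h' <;> omega

theorem tree (n01 : q1 ≠ q0) (n23 : q3 ≠ q2) (n45 : q5 ≠ q4)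
    (D0 : q2 = q0 ∨ q3 = q0 ∨ q4 = q0 ∨ q5 = q0)
    (D1 : q2 = q1 ∨ q3 = q1 ∨ q4 = q1 ∨ q5 = q1)
    (D2 : q2 = q0 ∨ q2 = q1 ∨ q4 = q2 ∨ q5 = q2)
    (D3 : q3 = q0 ∨ q3 = q1 ∨ q4 = q3 ∨ q5 = q3)
    (D4 : q4 = q0 ∨ q4 = q1 ∨ q4 = q2 ∨ q4 = q3)
    (D5 : q5 = q0 ∨ q5 = q1 ∨ q5 = q2 ∨ q5 = q3)
    (P03 : q3 = q0 → q2 = q0 ∨ q4 = q0 ∨ q5 = q0)
    (P05 : q5 = q0 → q2 = q0 ∨ q3 = q0 ∨ q4 = q0)
    (P12 : q2 = q1 → q3 = q1 ∨ q4 = q1 ∨ q5 = q1)
    (P14 : q4 = q1 → q2 = q1 ∨ q3 = q1 ∨ q5 = q1)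
    (P25 : q5 = q2 → q2 = q0 ∨ q2 = q1 ∨ q4 = q2)
    (P34 : q4 = q3 → q3 = q0 ∨ q3 = q1 ∨ q5 = q3)
    (X1 : q5 = q0 → q4 = q1 → False) (X2 : q2 = q1 → q3 = q0 → False)
    (X3 : q2 = q0 → q4 = q0 → q3 = q1 → q5 = q1 → False) : False := by
  by_cases h20 : q2 = q0
  · by_cases h40 : q4 = q0
    · exact treeA1 n01 n23 n45 h20 h40 D1 D3 D5 X3
    · by_cases h50 : q5 = q0
      · exact treeA2 n01 n23 n45 h20 h50 D1 D4 (X1 h50)
      · refine treeA3 n01 n23 n45 h20 h40 h50 D4 D5 (fun h => ?_) (fun h => ?_)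
        · rcases P14 h with h' | h' | h'
          · exact Or.inl h'
          · exact Or.inr h'
          · exact absurd (h'.trans h.symm) n45
        · rcases P34 h with h' | h' | h'
          · exact Or.inl h'
          · exact Or.inr h'
          · exact absurd (h'.trans h.symm) n45
  · by_cases h30 : q3 = q0
    · refine treeB1 n01 n23 n45 h30 D1 D2 ?_ (fun h => X2 h h30)
      rcases P03 h30 with h' | h' | h'
      · exact absurd h' h20
      · exact Or.inl h'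
      · exact Or.inr h'
    · by_cases h40 : q4 = q0
      · refine treeB2 n01 n23 n45 h20 h30 h40 D2 D3 (fun h => ?_) (fun h => ?_)
        · rcases P12 h with h' | h' | h'
          · exact absurd (h'.trans h.symm) n23
          · exact Or.inl h'
          · exact Or.inr h'
        · rcases P25 h with h' | h' | h'
          · exact Or.inl h'
          · exact Or.inr h'
          · exact absurd (h.trans h'.symm) n45
      · rcases D0 with h | h | h | h
        · exact h20 h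
        · exact h30 h
        · exact h40 h
        · rcases P05 h with h' | h' | h'
          · exact h20 h'
          · exact h30 h'
          · exact h40 h'

end tree

/-- The combinatorics of the six terms. -/
theorem comb : CombStm := by
  classical
  intro K E _ _ φ A U κ hκ hA hU hUA hn T hT hs
  have hT0 : T 0 = A 1 * U 0 := by rw [hT]; rfl
  have hT1 : T 1 = -(A 2 * U 0) := by rw [hT]; rfl
  have hT2 : T 2 = A 2 * U 1 := by rw [hT]; rfl
  have hT3 : T 3 = -(A 0 * U 1) := by rw [hT]; rfl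
  have hT4 : T 4 = A 0 * U 2 := by rw [hT]; rfl
  have hT5 : T 5 = -(A 1 * U 2) := by rw [hT]; rfl
  clear hT
  have tn : ∀ i, T i ≠ 0 := by
    intro i
    fin_cases i
    · exact hT0 ▸ mul_ne_zero (hA _) (hU _)
    · exact hT1 ▸ neg_ne_zero.2 (mul_ne_zero (hA _) (hU _))
    · exact hT2 ▸ mul_ne_zero (hA _) (hU _)
    · exact hT3 ▸ neg_ne_zero.2 (mul_ne_zero (hA _) (hU _))
    · exact hT4 ▸ mul_ne_zero (hA _) (hU _)
    · exact hT5 ▸ neg_ne_zero.2 (mul_ne_zero (hA _) (hU _))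
  -- the classes
  let S : Setoid (Fin 6) :=
    { r := fun i j => ∃ c : K, T i = φ c * T j
      iseqv := by
        refine ⟨fun i => ⟨1, by rw [map_one, one_mul]⟩, ?_, ?_⟩
        · rintro i j ⟨c, hc⟩
          have hc0 : φ c ≠ 0 := by
            intro h
            rw [h, zero_mul] at hc
            exact tn i hc
          refine ⟨c⁻¹, ?_⟩
          rw [hc, map_inv₀, inv_mul_cancel_left₀ hc0]
        · rintro i j l ⟨c, hc⟩ ⟨c', hc'⟩
          exact ⟨c * c', by rw [hc, hc', map_mul, mul_assoc]⟩ }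
  obtain ⟨g, hg⟩ := exists_injective_nat (Quotient S)
  set q : Fin 6 → ℕ := fun i => g (Quotient.mk S i) with hq
  have hqr : ∀ i j, q i = q j ↔ ∃ c : K, T i = φ c * T j := by
    intro i j
    constructor
    · intro h
      exact Quotient.exact (hg h)
    · intro h
      exact congrArg g (Quotient.sound (s := S) h)
  have hsum : ∀ i, ∑ j, (if q j = q i then T j else 0) = 0 := by
    intro i
    rw [← Finset.sum_filter]
    refine hs i _ fun j => ?_
    rw [Finset.mem_filter]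
    exact ⟨fun h => (hqr _ _).1 h.2, fun h => ⟨Finset.mem_univ _, (hqr _ _).2 h⟩⟩
  have nc : ∀ i j, i ≠ j → ∀ m : ℕ, 0 < m → ∀ c d : K, φ d ≠ 0 →
      φ d * A i ^ m ≠ φ c * A j ^ m := by
    intro i j hij m hm c d hd h
    refine hn i j hij m hm (c / d) ?_
    rw [div_pow, map_div₀, div_eq_div_iff (pow_ne_zero _ (hA j)) hd, mul_comm, h]
  have nc1 : ∀ i j, i ≠ j → ∀ c d : K, φ d ≠ 0 → φ d * A i ≠ φ c * A j := by
    intro i j hij c d hd h
    refine nc i j hij 1 one_pos c d hd ?_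
    rw [pow_one, pow_one, h]
  have ne : ∀ i j, i ≠ j → A i ≠ A j := by
    intro i j hij h
    refine nc1 i j hij 1 1 ?_ (by rw [h])
    rw [map_one]
    exact one_ne_zero
  have n01 : q 1 ≠ q 0 := by
    intro h
    obtain ⟨c, hc⟩ := (hqr _ _).1 h
    rw [hT1, hT0] at hc
    refine nc1 2 1 (by decide) (-c) 1 (by rw [map_one]; exact one_ne_zero) ?_
    apply mul_right_cancel₀ (hU 0)
    rw [map_one, map_neg]
    linear_combination -hc
  have n23 : q 3 ≠ q 2 := by
    intro h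
    obtain ⟨c, hc⟩ := (hqr _ _).1 h
    rw [hT3, hT2] at hc
    refine nc1 0 2 (by decide) (-c) 1 (by rw [map_one]; exact one_ne_zero) ?_
    apply mul_right_cancel₀ (hU 1)
    rw [map_one, map_neg]
    linear_combination -hc
  have n45 : q 5 ≠ q 4 := by
    intro h
    obtain ⟨c, hc⟩ := (hqr _ _).1 h
    rw [hT5, hT4] at hc
    refine nc1 1 0 (by decide) (-c) 1 (by rw [map_one]; exact one_ne_zero) ?_
    apply mul_right_cancel₀ (hU 2)
    rw [map_one, map_neg]
    linear_combination -hc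
  -- the sums over the classes
  have hz : ∀ i, (if q 0 = q i then T 0 else 0) + (if q 1 = q i then T 1 else 0) +
      (if q 2 = q i then T 2 else 0) + (if q 3 = q i then T 3 else 0) +
      (if q 4 = q i then T 4 else 0) + (if q 5 = q i then T 5 else 0) = 0 := by
    intro i
    have := hsum i
    rwa [Fin.sum_univ_six] at this
  have S0 := hz 0
  have S1 := hz 1
  have S2 := hz 2
  have S3 := hz 3
  have S4 := hz 4
  have S5 := hz 5
  rw [if_pos (rfl : q 0 = q 0), if_neg n01] at S0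
  rw [if_neg n01.symm, if_pos (rfl : q 1 = q 1)] at S1
  rw [if_pos (rfl : q 2 = q 2), if_neg n23] at S2
  rw [if_neg n23.symm, if_pos (rfl : q 3 = q 3)] at S3
  rw [if_pos (rfl : q 4 = q 4), if_neg n45] at S4
  rw [if_neg n45.symm, if_pos (rfl : q 5 = q 5)] at S5
  -- pairs
  have e03 : T 0 + T 3 ≠ 0 := by
    rw [hT0, hT3, hUA 0, hUA 1]
    intro h
    apply ne 0 1 (by decide)
    apply mul_left_cancel₀ hκ
    linear_combination h
  have e05 : T 0 + T 5 ≠ 0 := by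
    rw [hT0, hT5, hUA 0, hUA 2]
    intro h
    apply ne 0 2 (by decide)
    apply mul_left_cancel₀ (hA 1)
    linear_combination h
  have e12 : T 1 + T 2 ≠ 0 := by
    rw [hT1, hT2, hUA 0, hUA 1]
    intro h
    apply ne 1 0 (by decide)
    apply mul_left_cancel₀ (hA 2)
    linear_combination h
  have e14 : T 1 + T 4 ≠ 0 := by
    rw [hT1, hT4, hUA 0, hUA 2]
    intro h
    apply ne 2 0 (by decide)
    apply mul_left_cancel₀ hκ
    linear_combination h
  have e25 : T 2 + T 5 ≠ 0 := by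
    rw [hT2, hT5, hUA 1, hUA 2]
    intro h
    apply ne 1 2 (by decide)
    apply mul_left_cancel₀ hκ
    linear_combination h
  have e34 : T 3 + T 4 ≠ 0 := by
    rw [hT3, hT4, hUA 1, hUA 2]
    intro h
    apply ne 2 1 (by decide)
    apply mul_left_cancel₀ (hA 0)
    linear_combination h
  clear hz hsum hs
  refine tree n01 n23 n45 ?_ ?_ ?_ ?_ ?_ ?_ ?_ ?_ ?_ ?_ ?_ ?_ ?_ ?_ ?_
  · by_contra h
    push Not at h
    obtain ⟨h1, h2, h3, h4⟩ := h
    rw [if_neg h1, if_neg h2, if_neg h3, if_neg h4] at S0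
    exact tn 0 (by simpa using S0)
  · by_contra h
    push Not at h
    obtain ⟨h1, h2, h3, h4⟩ := h
    rw [if_neg h1, if_neg h2, if_neg h3, if_neg h4] at S1
    exact tn 1 (by simpa using S1)
  · by_contra h
    push Not at h
    obtain ⟨h1, h2, h3, h4⟩ := h
    rw [if_neg h1.symm, if_neg h2.symm, if_neg h3, if_neg h4] at S2
    exact tn 2 (by simpa using S2)
  · by_contra h
    push Not at h
    obtain ⟨h1, h2, h3, h4⟩ := h
    rw [if_neg h1.symm, if_neg h2.symm, if_neg h3, if_neg h4] at S3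
    exact tn 3 (by simpa using S3)
  · by_contra h
    push Not at h
    obtain ⟨h1, h2, h3, h4⟩ := h
    rw [if_neg h1.symm, if_neg h2.symm, if_neg h3.symm, if_neg h4.symm] at S4
    exact tn 4 (by simpa using S4)
  · by_contra h
    push Not at h
    obtain ⟨h1, h2, h3, h4⟩ := h
    rw [if_neg h1.symm, if_neg h2.symm, if_neg h3.symm, if_neg h4.symm] at S5
    exact tn 5 (by simpa using S5)
  · intro h0
    by_contra h
    push Not at h
    obtain ⟨h1, h2, h3⟩ := h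
    rw [if_neg h1, if_pos h0, if_neg h2, if_neg h3] at S0
    exact e03 (by simpa using S0)
  · intro h0
    by_contra h
    push Not at h
    obtain ⟨h1, h2, h3⟩ := h
    rw [if_neg h1, if_neg h2, if_neg h3, if_pos h0] at S0
    exact e05 (by simpa using S0)
  · intro h0
    by_contra h
    push Not at h
    obtain ⟨h1, h2, h3⟩ := h
    rw [if_pos h0, if_neg h1, if_neg h2, if_neg h3] at S1
    exact e12 (by simpa using S1)
  · intro h0
    by_contra h
    push Not at h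
    obtain ⟨h1, h2, h3⟩ := h
    rw [if_neg h1, if_neg h2, if_pos h0, if_neg h3] at S1
    exact e14 (by simpa using S1)
  · intro h0
    by_contra h
    push Not at h
    obtain ⟨h1, h2, h3⟩ := h
    rw [if_neg h1.symm, if_neg h2.symm, if_neg h3, if_pos h0] at S2
    exact e25 (by simpa using S2)
  · intro h0
    by_contra h
    push Not at h
    obtain ⟨h1, h2, h3⟩ := h
    rw [if_neg h1.symm, if_neg h2.symm, if_pos h0, if_neg h3] at S3
    exact e34 (by simpa using S3)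
  · -- `T 5 ~ T 0` and `T 4 ~ T 1`
    intro h h'
    obtain ⟨c, hc⟩ := (hqr _ _).1 h
    obtain ⟨d, hd⟩ := (hqr _ _).1 h'
    have hc1 : U 2 = -(φ c * U 0) := by
      apply mul_left_cancel₀ (hA 1)
      rw [hT5, hT0] at hc
      linear_combination -hc
    have hc0 : φ c ≠ 0 := by
      intro h0
      rw [h0, zero_mul, neg_zero] at hc1
      exact hU 2 hc1
    refine nc1 0 2 (by decide) d c hc0 ?_
    apply mul_right_cancel₀ (hU 0)
    rw [hT4, hT1, hc1] at hd
    linear_combination -hd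
  · -- `T 2 ~ T 1` and `T 3 ~ T 0`
    intro h h'
    obtain ⟨c, hc⟩ := (hqr _ _).1 h
    obtain ⟨d, hd⟩ := (hqr _ _).1 h'
    have hc1 : U 1 = -(φ c * U 0) := by
      apply mul_left_cancel₀ (hA 2)
      rw [hT2, hT1] at hc
      linear_combination hc
    have hc0 : φ c ≠ 0 := by
      intro h0
      rw [h0, zero_mul, neg_zero] at hc1
      exact hU 1 hc1
    refine nc1 0 1 (by decide) d c hc0 ?_
    apply mul_right_cancel₀ (hU 0)
    rw [hT3, hT0, hc1] at hd
    linear_combination hd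
  · -- two triples
    intro h1 h2 h3 h4
    obtain ⟨c1, hc1⟩ := (hqr _ _).1 h1
    obtain ⟨c2, hc2⟩ := (hqr _ _).1 h2
    obtain ⟨c3, hc3⟩ := (hqr _ _).1 h3
    obtain ⟨c4, hc4⟩ := (hqr _ _).1 h4
    rw [hT2, hT0] at hc1
    rw [hT4, hT0] at hc2
    rw [hT3, hT1] at hc3
    rw [hT5, hT1] at hc4
    have k1 : φ c1 ≠ 0 := by
      intro h0
      rw [h0, zero_mul] at hc1
      exact mul_ne_zero (hA 2) (hU 1) hc1
    have k2 : φ c2 ≠ 0 := by
      intro h0
      rw [h0, zero_mul] at hc2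
      exact mul_ne_zero (hA 0) (hU 2) hc2
    -- `c1 A0 A1 = c3 A2 ^ 2`, `c2 A1 ^ 2 = c4 A0 A2`
    have r1 : φ c1 * A 0 * A 1 = φ c3 * A 2 ^ 2 := by
      apply mul_right_cancel₀ (hU 0)
      linear_combination (-A 0) * hc1 - A 2 * hc3
    have r2 : φ c2 * A 1 ^ 2 = φ c4 * A 0 * A 2 := by
      apply mul_right_cancel₀ (hU 0)
      linear_combination (-A 1) * hc2 - A 0 * hc4
    refine nc 1 2 (by decide) 3 (by norm_num) (c4 * c3) (c2 * c1) (by
      rw [map_mul]
      exact mul_ne_zero k2 k1) ?_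
    rw [map_mul, map_mul]
    linear_combination (φ c1 * A 1) * r2 + (φ c4 * A 2) * r1

end Pool.Agent.Y564.RP
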